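import Mathlib
import Pool.Agent.N515.LM.M5

set_option autoImplicit false

/-!
MP_335999_gt: a minimal Fréchet–Urysohn group need not be metrizable.
-/

namespace Pool.Agent.Results.MP_335999_gt.FinitaryPermutations

/-- `G` with its topology `τ` is minimal: every Hausdorff group topology `σ` coarser than `τ`
equals `τ`. -/
def IsMinimalGroup (G : Type) [Group G] [τ : TopologicalSpace G] : Prop :=
  ∀ σ : TopologicalSpace G, τ ≤ σ → @IsTopologicalGroup G σ _ → @T2Space G σ → σ = τ

/-- There is a Hausdorff topological group that is minimal and Fréchet–Urysohn but not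
metrizable. -/
theorem result : ∃ (G : Type) (_ : Group G) (_ : TopologicalSpace G), IsTopologicalGroup G ∧
    T2Space G ∧ IsMinimalGroup G ∧ FrechetUrysohnSpace G ∧ ¬ TopologicalSpace.MetrizableSpace G :=
  Pool.Agent.N515.LM.t_LM5

end Pool.Agent.Results.MP_335999_gt.FinitaryPermutations
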